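import Pool.Agent.Lib.MP_42948a_nt.FR.Defs

/-!
# The distance of `χ n` from `ζ ^ Ω n` (job C3)

COPY the file `MV/C3.lean` and adapt it: `Ω` is additive (`ArithmeticFunction.cardFactors_mul` for nonzero numbers, `ArithmeticFunction.cardFactors_apply_prime`, `ArithmeticFunction.cardFactors_one`), `χ(ab) - ζ^Ω(ab) = (χ a - ζ^Ω a) χ b + ζ^Ω a (χ b - ζ^Ω b)`.
-/

namespace Pool.Agent.Lib.MP_42948a_nt.FR

open Finset Pool.Agent.Lib.MP_42948a_nt.OA Pool.Agent.Lib.MP_42948a_nt.AC Pool.Agent.Lib.MP_42948a_nt.TQ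
  Pool.Agent.Lib.MP_42948a_nt.PS Pool.Agent.Lib.MP_42948a_nt.EK Pool.Agent.Lib.MP_42948a_nt.MV

theorem char_diff2 (d : ℕ) (χ : DirichletCharacter ℂ d) (ζ : ℂ) (hζ : ‖ζ‖ = 1) (n : ℕ) (hn : 0 < n) :
    ‖χ (n : ZMod d) - ζ ^ OM.Om n‖ ≤ ∑ p ∈ n.primeFactors, (n.factorization p : ℝ) * ‖χ (p : ZMod d) - ζ‖ := by
  have key : ∀ n : ℕ, 0 < n → ‖χ (n : ZMod d) - ζ ^ OM.Om n‖ ≤
      n.factorization.sum (fun p k => (k : ℝ) * ‖χ (p : ZMod d) - ζ‖) := by
    intro n
    induction n using Nat.recOnMul with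
    | zero => exact fun h => absurd h (lt_irrefl 0)
    | one =>
      intro _
      rw [Nat.factorization_one, Finsupp.sum_zero_index, Nat.cast_one, map_one, OM.Om,
        ArithmeticFunction.cardFactors_one, pow_zero, sub_self, norm_zero]
    | prime p hp =>
      intro _
      rw [hp.factorization, Finsupp.sum_single_index]
      · rw [Nat.cast_one, one_mul, OM.Om, ArithmeticFunction.cardFactors_apply_prime hp, pow_one]
      · rw [Nat.cast_zero, zero_mul]
    | mul a b iha ihb =>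
      intro hab
      have ha : 0 < a := Nat.pos_of_ne_zero fun h => by rw [h, zero_mul] at hab; exact lt_irrefl 0 hab
      have hb : 0 < b := Nat.pos_of_ne_zero fun h => by rw [h, mul_zero] at hab; exact lt_irrefl 0 hab
      have hOm : OM.Om (a * b) = OM.Om a + OM.Om b := by
        rw [OM.Om, OM.Om, OM.Om, ArithmeticFunction.cardFactors_mul ha.ne' hb.ne']
      rw [Nat.factorization_mul ha.ne' hb.ne', Finsupp.sum_add_index']
      · have h1 : χ ((a * b : ℕ) : ZMod d) - ζ ^ OM.Om (a * b) =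
            (χ (a : ZMod d) - ζ ^ OM.Om a) * χ (b : ZMod d) +
              ζ ^ OM.Om a * (χ (b : ZMod d) - ζ ^ OM.Om b) := by
          rw [hOm, Nat.cast_mul, map_mul, pow_add]
          ring
        rw [h1]
        refine (norm_add_le _ _).trans (add_le_add ?_ ?_)
        · rw [norm_mul]
          have h2 : ‖χ (b : ZMod d)‖ ≤ 1 := DirichletCharacter.norm_le_one χ _
          exact (mul_le_of_le_one_right (norm_nonneg _) h2).trans (iha ha)
        · rw [norm_mul, norm_pow, hζ, one_pow, one_mul]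
          exact ihb hb
      · intro p
        rw [Nat.cast_zero, zero_mul]
      · intro p k₁ k₂
        rw [Nat.cast_add, add_mul]
  exact key n hn

end Pool.Agent.Lib.MP_42948a_nt.FR
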