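import Pool.Agent.Lib.MP_42948a_nt.FR.Defs
import Pool.Agent.Lib.MP_42948a_nt.MV.C2
import Pool.Agent.Lib.MP_42948a_nt.MV.S3
import Pool.Agent.Lib.MP_42948a_nt.PS.B1c

/-!
# The rough numbers not coprime to `d` (job D1)

`z = ⌊d^c⌋₊`. `RR z A B = rg 1 z A B` (`RR_eq`, `Defs.lean`). `big_prime` (`MV/C2.lean`) with `1` in place of `d`, `S = d.primeFactors.filter (fun p => (d:ℝ)^c < p)`, `P n = ¬ n.Coprime d`: such `n` (rough) has a prime factor `p ∣ d`, `p > z`, so `p > d^c`;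
`M` from `rough_crude k1` (`MV/S3.lean`): `MS 1 z (A/q) (B/q) ≤ MS 1 z 0 (z^k1) ≤ M` (`MS_mono`, `Nat.div_le_self`), `z ≥ 2` for large `d`. `#S ≤ 1/c` (`few_prime_divisors`, `PS/B1c.lean`, `d ≥ 2`), each `1/p ≤ d^(-c)`: the sum is `≤ M (1/c) d^(-c) ≤ ε` for large `d`.
-/

namespace Pool.Agent.Lib.MP_42948a_nt.FR

open Finset Pool.Agent.Lib.MP_42948a_nt.OA Pool.Agent.Lib.MP_42948a_nt.AC Pool.Agent.Lib.MP_42948a_nt.TQ
  Pool.Agent.Lib.MP_42948a_nt.PS Pool.Agent.Lib.MP_42948a_nt.EK Pool.Agent.Lib.MP_42948a_nt.MV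

open Classical in
theorem not_coprime (c : ℝ) (hc : 0 < c) (k1 : ℕ) (ε : ℝ) (hε : 0 < ε) : ∃ d0 : ℕ, ∀ d : ℕ, d0 ≤ d →
    ∀ A B : ℕ, B ≤ (zz c d) ^ k1 →
      ∑ n ∈ (OM.RR (zz c d) A B).filter (fun n => ¬ n.Coprime d), 1 / (n : ℝ) ≤ ε := by
  obtain ⟨M, hM0, hM⟩ := rough_crude k1
  have hlim : Filter.Tendsto (fun d : ℕ => (d : ℝ) ^ c) Filter.atTop Filter.atTop :=
    (tendsto_rpow_atTop hc).comp tendsto_natCast_atTop_atTop
  obtain ⟨d1, hd1⟩ := Filter.eventually_atTop.1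
    ((Filter.tendsto_atTop.1 hlim (M / (c * ε))).and (Filter.tendsto_atTop.1 hlim 2))
  refine ⟨max d1 2, ?_⟩
  intro d hd A B hB
  have hd2 : 2 ≤ d := (le_max_right _ _).trans hd
  obtain ⟨e1, e2⟩ := hd1 d ((le_max_left _ _).trans hd)
  have hz : 2 ≤ zz c d := by
    unfold zz
    exact Nat.le_floor (by exact_mod_cast e2)
  have hpos : (0 : ℝ) < (d : ℝ) ^ c := by linarith
  have hM' : ∀ q : ℕ, 1 ≤ q → MS 1 (zz c d) (A / q) (B / q) ≤ M := fun q _ =>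
    (MS_mono (Nat.zero_le _) ((Nat.div_le_self B q).trans hB)).trans (hM (zz c d) hz 1)
  have h := big_prime 1 (zz c d) A B M hM' (d.primeFactors.filter (fun p : ℕ => (d : ℝ) ^ c < p))
    (fun p hp => Nat.prime_of_mem_primeFactors (mem_filter.1 hp).1)
    (fun n => ¬ n.Coprime d) (by
      intro n hn hnc
      obtain ⟨p, hp, hpn, hpd⟩ := Nat.Prime.not_coprime_iff_dvd.1 hnc
      refine ⟨p, ?_, hpn⟩
      rw [mem_filter, Nat.mem_primeFactors]
      refine ⟨⟨hp, hpd, by omega⟩, ?_⟩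
      have h1 : zz c d < p := (mem_rg.1 hn).2.2.2 p hp hpn
      have h2 : (d : ℝ) ^ c < (zz c d : ℝ) + 1 := Nat.lt_floor_add_one _
      have h3 : (zz c d : ℝ) + 1 ≤ p := by exact_mod_cast h1
      linarith)
  rw [RR_eq]
  refine le_trans (le_of_eq ?_) (h.trans ?_)
  · exact sum_congr (by ext n; simp only [mem_filter]) fun _ _ => rfl
  · have h1 : ∑ p ∈ d.primeFactors.filter (fun p : ℕ => (d : ℝ) ^ c < p), 1 / (p : ℝ) ≤
        1 / c * (1 / (d : ℝ) ^ c) := by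
      have h2 : ∑ p ∈ d.primeFactors.filter (fun p : ℕ => (d : ℝ) ^ c < p), 1 / (p : ℝ) ≤
          ∑ _p ∈ d.primeFactors.filter (fun p : ℕ => (d : ℝ) ^ c < p), 1 / (d : ℝ) ^ c := by
        refine sum_le_sum fun p hp => ?_
        exact one_div_le_one_div_of_le hpos (mem_filter.1 hp).2.le
      refine h2.trans ?_
      rw [sum_const, nsmul_eq_mul]
      exact mul_le_mul_of_nonneg_right (few_prime_divisors c hc d hd2) (by positivity)
    refine (mul_le_mul_of_nonneg_left h1 hM0.le).trans ?_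
    rw [div_le_iff₀ (by positivity)] at e1
    have h4 : M * (1 / c * (1 / (d : ℝ) ^ c)) = M / (c * (d : ℝ) ^ c) := by
      field_simp
    rw [h4, div_le_iff₀ (by positivity)]
    linarith

end Pool.Agent.Lib.MP_42948a_nt.FR
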