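import Pool.Agent.Lib.MP_42948a_nt.FR.Defs

/-!
# The sizes (job G1)

`z = ⌊d^c⌋₊`, `x0 = Ax κ d = ⌊d^(1/4+κ/4)⌋₊`, `L = log d`. For large `d`: `d^c - 1 ≤ z ≤ d^c`, `c L - log 2 ≤ log z ≤ c L`, `z ≥ 2, z0`; `(1/4+κ/4) L - log 2 ≤ log x0 ≤ (1/4+κ/4) L ≤ (13/50) L`. So `c log x0 ≤ (13/50) c L ≤ c L - log 2 ≤ log z` for large `d`;
`log z ≤ c L ≤ (κ/100) L ≤ (κ/4)(1/5) L ≤ (κ/4) log x0` for large `d`. `z^K ≤ d^(K c) ≤ d^(κ/16) ≤ d^(1/5) ≤ x0` for large `d`. `#divisors d ≤ C d^(1/100)` (the divisor bound used in `MV/S6.lean`, see the private lemma `S6_asy` there, and `divisors_le`-like lemmas), so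
`12 z^K D/x0 ≤ 12 C d^(κ/16 + 1/100 - 1/5) → 0`. For `x0 ≤ B ≤ x0^(1+κ)`: `B ≤ d^((1/4+κ/4)(1+κ)) ≤ d^(1/4+κ)` (`(1/4+κ/4)(1+κ) = 1/4 + κ/2 + κ²/4 ≤ 1/4 + κ`), `B` is a natural number so `B ≤ ⌊d^(1/4+κ)⌋₊`, `≤ d`;
`k1 = ⌈2/c⌉₊ + 1`: `z^k1 ≥ (d^(c/2))^k1 ≥ d` (`z ≥ d^(c/2)` for large `d`); `log (B/x0) ≤ κ log x0 ≤ κ (13/50) L ≤ L/2` and `log z/c ≥ L - log 2/c ≥ L/2` for large `d`.
-/

namespace Pool.Agent.Lib.MP_42948a_nt.FR

open Finset Pool.Agent.Lib.MP_42948a_nt.OA Pool.Agent.Lib.MP_42948a_nt.AC Pool.Agent.Lib.MP_42948a_nt.TQ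
  Pool.Agent.Lib.MP_42948a_nt.PS Pool.Agent.Lib.MP_42948a_nt.EK Pool.Agent.Lib.MP_42948a_nt.MV

private theorem G1_pow (e M : ℝ) (he : 0 < e) : ∃ d0 : ℕ, ∀ d : ℕ, d0 ≤ d → M ≤ (d : ℝ) ^ e := by
  have h1 : Filter.Tendsto (fun d : ℕ => (d : ℝ) ^ e) Filter.atTop Filter.atTop :=
    (tendsto_rpow_atTop he).comp tendsto_natCast_atTop_atTop
  exact Filter.eventually_atTop.1 (h1.eventually_ge_atTop M)

theorem geo (κ c : ℝ) (hκ : 0 < κ) (hκ1 : κ ≤ 1 / 100) (hc : 0 < c) (hc1 : c ≤ κ / 100) (K : ℕ)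
    (hKc : ((K : ℝ) + 2) * c ≤ κ / 16) (z0 : ℕ) (ε : ℝ) (hε : 0 < ε) : ∃ k1 : ℕ, ∃ d0 : ℕ, ∀ d : ℕ, d0 ≤ d →
    2 ≤ zz c d ∧ z0 ≤ zz c d ∧ c * Real.log (Ax κ d) ≤ Real.log (zz c d) ∧
    Real.log (zz c d) ≤ κ / 4 * Real.log (Ax κ d) ∧ (zz c d) ^ K ≤ Ax κ d ∧
    12 * (zz c d : ℝ) ^ K * (d.divisors.card : ℝ) / Ax κ d ≤ ε ∧
    ∀ B : ℕ, Ax κ d ≤ B → (B : ℝ) ≤ (Ax κ d : ℝ) ^ (1 + κ) →
      B ≤ ⌊(d : ℝ) ^ (1 / 4 + κ : ℝ)⌋₊ ∧ B ≤ d ∧ B ≤ (zz c d) ^ k1 ∧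
      Real.log ((B : ℝ) / Ax κ d) ≤ Real.log (zz c d) / c := by
  obtain ⟨d1, h1⟩ := G1_pow (c / 2) 2 (by positivity)
  obtain ⟨d2, h2⟩ := G1_pow (c / 2) z0 (by positivity)
  obtain ⟨d3, h3⟩ := G1_pow (1 / 10) (24 / ε) (by norm_num)
  obtain ⟨d4, h4⟩ := BB_le (c / 2) (by positivity)
  obtain ⟨d5, h5⟩ := G1_pow (1 / 20) 2 (by norm_num)
  refine ⟨⌈2 / c⌉₊, max (max (max d1 d2) (max d3 d4)) (max d5 2), fun d hd => ?_⟩
  have hd1 := h1 d ((le_max_left _ _).trans ((le_max_left _ _).trans ((le_max_left _ _).trans hd)))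
  have hd2 := h2 d ((le_max_right _ _).trans ((le_max_left _ _).trans ((le_max_left _ _).trans hd)))
  have hd3 := h3 d ((le_max_left _ _).trans ((le_max_right _ _).trans ((le_max_left _ _).trans hd)))
  have hd4 := (h4 d ((le_max_right _ _).trans ((le_max_right _ _).trans
    ((le_max_left _ _).trans hd)))).2
  have hd5 := h5 d ((le_max_left _ _).trans ((le_max_right _ _).trans hd))
  have hd6 : 2 ≤ d := (le_max_right _ _).trans ((le_max_right _ _).trans hd)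
  have hdr : (2 : ℝ) ≤ d := by exact_mod_cast hd6
  have hd0 : (0 : ℝ) < d := by linarith
  have hdr1 : (1 : ℝ) ≤ d := by linarith
  have hL : 0 < Real.log d := Real.log_pos (by linarith)
  have hmono : ∀ {a b : ℝ}, a ≤ b → (d : ℝ) ^ a ≤ (d : ℝ) ^ b := fun h =>
    Real.rpow_le_rpow_of_exponent_le hdr1 h
  have hcc : (d : ℝ) ^ c = (d : ℝ) ^ (c / 2) * (d : ℝ) ^ (c / 2) := by
    rw [← Real.rpow_add hd0]
    congr 1
    ring
  have hzle : (zz c d : ℝ) ≤ (d : ℝ) ^ c := Nat.floor_le (by positivity)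
  have hzgt : (d : ℝ) ^ c < zz c d + 1 := Nat.lt_floor_add_one _
  have hDz : (d : ℝ) ^ (c / 2) ≤ zz c d := by
    have e1 : 2 * (d : ℝ) ^ (c / 2) ≤ (d : ℝ) ^ (c / 2) * (d : ℝ) ^ (c / 2) :=
      mul_le_mul_of_nonneg_right hd1 (by positivity)
    rw [← hcc] at e1
    linarith
  have hz2 : (2 : ℝ) ≤ zz c d := hd1.trans hDz
  have hz0' : (0 : ℝ) < zz c d := by linarith
  have hAle : (Ax κ d : ℝ) ≤ (d : ℝ) ^ (1 / 4 + κ / 4 : ℝ) := Nat.floor_le (by positivity)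
  have hAgt : (d : ℝ) ^ (1 / 4 + κ / 4 : ℝ) < Ax κ d + 1 := Nat.lt_floor_add_one _
  have h15 : (1 : ℝ) ≤ (d : ℝ) ^ (1 / 5 : ℝ) := Real.one_le_rpow hdr1 (by norm_num)
  have h14 : 2 * (d : ℝ) ^ (1 / 5 : ℝ) ≤ (d : ℝ) ^ (1 / 4 + κ / 4 : ℝ) := by
    have e1 : 2 * (d : ℝ) ^ (1 / 5 : ℝ) ≤ (d : ℝ) ^ (1 / 20 : ℝ) * (d : ℝ) ^ (1 / 5 : ℝ) :=
      mul_le_mul_of_nonneg_right hd5 (by positivity)
    rw [← Real.rpow_add hd0] at e1
    exact e1.trans (hmono (by linarith))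
  have hA5 : (d : ℝ) ^ (1 / 5 : ℝ) ≤ Ax κ d := by linarith
  have hA2 : (d : ℝ) ^ (1 / 4 + κ / 4 : ℝ) / 2 ≤ Ax κ d := by linarith
  have hA1 : (1 : ℝ) ≤ Ax κ d := h15.trans hA5
  have hA0 : (0 : ℝ) < Ax κ d := by linarith
  have hlz1 : c / 2 * Real.log d ≤ Real.log (zz c d) := by
    have e := Real.log_le_log (by positivity) hDz
    rwa [Real.log_rpow hd0] at e
  have hlz2 : Real.log (zz c d) ≤ c * Real.log d := by
    have e := Real.log_le_log hz0' hzle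
    rwa [Real.log_rpow hd0] at e
  have hlA1 : 1 / 5 * Real.log d ≤ Real.log (Ax κ d) := by
    have e := Real.log_le_log (by positivity) hA5
    rwa [Real.log_rpow hd0] at e
  have hlA2 : Real.log (Ax κ d) ≤ (1 / 4 + κ / 4) * Real.log d := by
    have e := Real.log_le_log hA0 hAle
    rwa [Real.log_rpow hd0] at e
  have hlA3 : Real.log (Ax κ d) ≤ 1 / 2 * Real.log d :=
    hlA2.trans (mul_le_mul_of_nonneg_right (by linarith) hL.le)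
  have hlA0 : 0 ≤ Real.log (Ax κ d) := Real.log_nonneg hA1
  have hK0 : (0 : ℝ) ≤ K := Nat.cast_nonneg K
  have hzK : (zz c d : ℝ) ^ K ≤ (d : ℝ) ^ (c * K) := by
    rw [Real.rpow_mul hd0.le, Real.rpow_natCast]
    exact pow_le_pow_left₀ (Nat.cast_nonneg _) hzle K
  have hcK0 : c * K + 2 * c ≤ κ / 16 := by
    have e : c * K + 2 * c = ((K : ℝ) + 2) * c := by ring
    rw [e]
    exact hKc
  have hcK1 : c * K + c / 2 ≤ 1 / 10 := by linarith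
  have hcK2 : c * K ≤ 1 / 5 := by linarith
  refine ⟨by exact_mod_cast hz2, by exact_mod_cast hd2.trans hDz, ?_, ?_, ?_, ?_, ?_⟩
  · have e1 : c * Real.log (Ax κ d) ≤ c * (1 / 2 * Real.log d) :=
      mul_le_mul_of_nonneg_left hlA3 hc.le
    linarith
  · have e1 : κ / 4 * (1 / 5 * Real.log d) ≤ κ / 4 * Real.log (Ax κ d) :=
      mul_le_mul_of_nonneg_left hlA1 (by positivity)
    have e2 : c * Real.log d ≤ κ / 100 * Real.log d := mul_le_mul_of_nonneg_right hc1 hL.le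
    have e3 : 0 ≤ κ * Real.log d := by positivity
    linarith
  · have e1 : (zz c d : ℝ) ^ K ≤ Ax κ d := hzK.trans ((hmono hcK2).trans hA5)
    exact_mod_cast e1
  · rw [div_le_iff₀ hA0]
    have e1 : (zz c d : ℝ) ^ K * (d.divisors.card : ℝ) ≤ (d : ℝ) ^ (c * K) * (d : ℝ) ^ (c / 2) :=
      mul_le_mul hzK hd4 (by positivity) (by positivity)
    rw [← Real.rpow_add hd0] at e1
    have e2 := e1.trans (hmono hcK1)
    have e3 : 24 ≤ ε * (d : ℝ) ^ (1 / 10 : ℝ) := by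
      have e := mul_le_mul_of_nonneg_left hd3 hε.le
      rwa [mul_div_cancel₀ _ hε.ne'] at e
    have e4 : 24 * (d : ℝ) ^ (1 / 10 : ℝ) ≤ ε * (d : ℝ) ^ (1 / 10 : ℝ) * (d : ℝ) ^ (1 / 10 : ℝ) :=
      mul_le_mul_of_nonneg_right e3 (by positivity)
    have e5 : ε * (d : ℝ) ^ (1 / 10 : ℝ) * (d : ℝ) ^ (1 / 10 : ℝ) =
        ε * (d : ℝ) ^ (1 / 5 : ℝ) := by
      rw [mul_assoc, ← Real.rpow_add hd0]
      norm_num
    have e6 : ε * (d : ℝ) ^ (1 / 5 : ℝ) ≤ ε * ((d : ℝ) ^ (1 / 4 + κ / 4 : ℝ) / 2) :=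
      mul_le_mul_of_nonneg_left (by linarith) hε.le
    have e7 : ε * ((d : ℝ) ^ (1 / 4 + κ / 4 : ℝ) / 2) ≤ ε * Ax κ d :=
      mul_le_mul_of_nonneg_left hA2 hε.le
    have e8 : 12 * (zz c d : ℝ) ^ K * (d.divisors.card : ℝ) =
        12 * ((zz c d : ℝ) ^ K * (d.divisors.card : ℝ)) := by ring
    have e9 : (0 : ℝ) ≤ (d : ℝ) ^ (1 / 10 : ℝ) := by positivity
    rw [e8]
    linarith
  · intro B hAB hB
    have hABr : (Ax κ d : ℝ) ≤ B := by exact_mod_cast hAB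
    have hB0 : (0 : ℝ) < B := hA0.trans_le hABr
    have e1 : (B : ℝ) ≤ (d : ℝ) ^ (1 / 4 + κ : ℝ) := by
      have e2 : (Ax κ d : ℝ) ^ (1 + κ) ≤ ((d : ℝ) ^ (1 / 4 + κ / 4 : ℝ)) ^ (1 + κ) :=
        Real.rpow_le_rpow hA0.le hAle (by linarith)
      rw [← Real.rpow_mul hd0.le] at e2
      refine hB.trans (e2.trans (hmono ?_))
      have e3 : κ * κ ≤ 1 / 100 * κ := mul_le_mul_of_nonneg_right hκ1 hκ.le
      have e4 : (1 / 4 + κ / 4) * (1 + κ) = 1 / 4 + κ / 2 + κ * κ / 4 := by ring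
      rw [e4]
      linarith
    have e2 : (B : ℝ) ≤ d := by
      have e3 := e1.trans (hmono (by linarith : (1 / 4 + κ : ℝ) ≤ 1))
      rwa [Real.rpow_one] at e3
    refine ⟨Nat.le_floor e1, by exact_mod_cast e2, ?_, ?_⟩
    · have e3 : (d : ℝ) ≤ (zz c d : ℝ) ^ ⌈2 / c⌉₊ := by
        have e4 : ((d : ℝ) ^ (c / 2)) ^ ⌈2 / c⌉₊ ≤ (zz c d : ℝ) ^ ⌈2 / c⌉₊ :=
          pow_le_pow_left₀ (by positivity) hDz _
        refine le_trans ?_ e4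
        rw [← Real.rpow_natCast, ← Real.rpow_mul hd0.le]
        have e5 : (1 : ℝ) ≤ c / 2 * (⌈2 / c⌉₊ : ℕ) := by
          have e6 : 2 / c ≤ (⌈2 / c⌉₊ : ℝ) := Nat.le_ceil _
          have e7 := mul_le_mul_of_nonneg_left e6 (by positivity : 0 ≤ c / 2)
          have e8 : c / 2 * (2 / c) = 1 := by
            field_simp
          rwa [e8] at e7
        have e9 := hmono e5
        rwa [Real.rpow_one] at e9
      exact_mod_cast e2.trans e3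
    · have e3 : Real.log B ≤ (1 + κ) * Real.log (Ax κ d) := by
        have e := Real.log_le_log hB0 hB
        rwa [Real.log_rpow hA0] at e
      rw [Real.log_div hB0.ne' hA0.ne', le_div_iff₀ hc]
      have e4 : κ * Real.log (Ax κ d) ≤ 1 * Real.log (Ax κ d) :=
        mul_le_mul_of_nonneg_right (by linarith) hlA0
      have e5 : Real.log B - Real.log (Ax κ d) ≤ 1 / 2 * Real.log d := by linarith
      have e6 := mul_le_mul_of_nonneg_right e5 hc.le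
      linarith

end Pool.Agent.Lib.MP_42948a_nt.FR
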