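import Pool.Agent.Lib.MP_42948a_nt.FR.N1
import Pool.Agent.Lib.MP_42948a_nt.FR.O1
import Pool.Agent.Lib.MP_42948a_nt.FR.B1
import Pool.Agent.Lib.MP_42948a_nt.FR.C3
import Pool.Agent.Lib.MP_42948a_nt.FR.P1
import Pool.Agent.Lib.MP_42948a_nt.FR.G1
import Pool.Agent.Lib.MP_42948a_nt.FR.D1

/-!
# A nonprincipal character is not close to a constant on the primes up to `d ^ (1/4 + κ)`
-/

namespace Pool.Agent.Lib.MP_42948a_nt.FR

open Finset Pool.Agent.Lib.MP_42948a_nt.OA Pool.Agent.Lib.MP_42948a_nt.AC Pool.Agent.Lib.MP_42948a_nt.TQ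
  Pool.Agent.Lib.MP_42948a_nt.PS Pool.Agent.Lib.MP_42948a_nt.EK Pool.Agent.Lib.MP_42948a_nt.MV

open Classical in
/-- the bias of the rough numbers against the character sum -/
theorem compare (d : ℕ) [NeZero d] (χ : DirichletCharacter ℂ d) (ζ : ℂ) (hζ : ‖ζ‖ = 1) (z A B : ℕ) (M : ℝ)
    (hM : ∀ q : ℕ, 1 ≤ q → MS d z (A / q) (B / q) ≤ M) (S1 : Finset ℕ) (hS1 : ∀ p ∈ S1, p.Prime)
    (hS : ∀ n ∈ rg d z A B, ∀ p : ℕ, p.Prime → p ∣ n → p ∈ S1) :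
    ‖∑ n ∈ OM.RR z A B, ζ ^ OM.Om n / (n : ℂ)‖ ≤
      ‖∑ n ∈ rg d z A B, ((1 / (n : ℝ) : ℝ) : ℂ) * χ (n : ZMod d)‖ +
        ∑ n ∈ (OM.RR z A B).filter (fun n => ¬ n.Coprime d), 1 / (n : ℝ) +
        2 * M * ∑ p ∈ S1, 1 / (p : ℝ) * ‖χ (p : ZMod d) - ζ‖ := by
  have hRR : (OM.RR z A B).filter (fun n => n.Coprime d) = rg d z A B := by
    ext n
    unfold OM.RR
    rw [mem_filter, mem_filter, mem_rg, mem_Ioc]
    exact ⟨fun h => ⟨h.1.1, h.2, h.1.2⟩, fun h => ⟨⟨h.1, h.2.2⟩, h.2.1⟩⟩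
  have h1 := sum_filter_add_sum_filter_not (OM.RR z A B) (fun n => n.Coprime d) (fun n : ℕ => ζ ^ OM.Om n / (n : ℂ))
  rw [hRR] at h1
  rw [← h1]
  have h2 : ‖∑ n ∈ (OM.RR z A B).filter (fun n => ¬ n.Coprime d), ζ ^ OM.Om n / (n : ℂ)‖ ≤
      ∑ n ∈ (OM.RR z A B).filter (fun n => ¬ n.Coprime d), 1 / (n : ℝ) := by
    refine (norm_sum_le _ _).trans (sum_le_sum fun n _ => ?_)
    rw [norm_div, norm_pow, hζ, one_pow, Complex.norm_natCast]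
  have h3 : ∑ n ∈ rg d z A B, ζ ^ OM.Om n / (n : ℂ) = ∑ n ∈ rg d z A B, ((1 / (n : ℝ) : ℝ) : ℂ) * χ (n : ZMod d) -
      ∑ n ∈ rg d z A B, ((1 / (n : ℝ) : ℝ) : ℂ) * (χ (n : ZMod d) - ζ ^ OM.Om n) := by
    rw [← sum_sub_distrib]
    refine sum_congr rfl fun n _ => ?_
    push_cast
    ring
  have h4 : ‖∑ n ∈ rg d z A B, ((1 / (n : ℝ) : ℝ) : ℂ) * (χ (n : ZMod d) - ζ ^ OM.Om n)‖ ≤
      2 * M * ∑ p ∈ S1, 1 / (p : ℝ) * ‖χ (p : ZMod d) - ζ‖ := by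
    have h5 := smooth_part d z A B M hM S1 hS1 (fun p => ‖χ (p : ZMod d) - ζ‖) (fun p => norm_nonneg _)
    refine le_trans ?_ h5
    have h6 : (rg d z A B).filter (fun n => ∀ p : ℕ, p.Prime → p ∣ n → p ∈ S1) = rg d z A B :=
      Finset.filter_true_of_mem hS
    rw [h6]
    refine (norm_sum_le _ _).trans (sum_le_sum fun n hn => ?_)
    have hn0 : 0 < n := by
      rw [mem_rg] at hn
      exact hn.2.2.1
    have h7 : (0 : ℝ) ≤ 1 / (n : ℝ) := by positivity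
    rw [norm_mul, Complex.norm_real, Real.norm_of_nonneg h7]
    exact mul_le_mul_of_nonneg_left (char_diff2 d χ ζ hζ n hn0) h7
  have h8 : ‖∑ n ∈ rg d z A B, ζ ^ OM.Om n / (n : ℂ)‖ ≤
      ‖∑ n ∈ rg d z A B, ((1 / (n : ℝ) : ℝ) : ℂ) * χ (n : ZMod d)‖ +
        2 * M * ∑ p ∈ S1, 1 / (p : ℝ) * ‖χ (p : ZMod d) - ζ‖ := by
    rw [h3]
    exact (norm_sub_le _ _).trans (add_le_add le_rfl h4)
  refine (norm_add_le _ _).trans ?_
  linarith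

/-- the form with one constant `c` -/
theorem far_one (κ : ℝ) (hκ : 0 < κ) (hκ1 : κ ≤ 1 / 100) : ∃ c : ℝ, 0 < c ∧ c ≤ κ / 100 ∧ ∃ σ : ℝ, 0 < σ ∧
    ∃ d0 : ℕ, ∀ d : ℕ, d0 ≤ d → ∀ [NeZero d], ∀ χ : DirichletCharacter ℂ d, χ ≠ 1 → ∀ ζ : ℂ, ‖ζ‖ = 1 →
      -(1 / 2) ≤ ζ.re → σ ≤ ∑ p ∈ PW d c (1 / 4 + κ), rw1 p * ‖χ (p : ZMod d) - ζ‖ ^ 2 := by
  classical
  obtain ⟨cb, hcb, hbias⟩ := OM.bias κ hκ (by linarith)
  obtain ⟨C, hC, hfund⟩ := fund_quant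
  obtain ⟨c, hc, hc1, τ, hτ, hτ1, hτ8, hKc⟩ := choice C cb κ hC hcb hκ
  obtain ⟨K, hK1, hK⟩ := hfund τ hτ hτ1
  have hKc2 : ((K : ℝ) + 2) * c ≤ κ / 16 := (mul_le_mul_of_nonneg_right (by linarith) hc.le).trans hKc
  have hKc1 : (K : ℝ) * c ≤ κ / 16 := by nlinarith
  obtain ⟨z0, hz0⟩ := hbias c hc (by linarith)
  obtain ⟨m, hm, σ1, hσ1, d1, hd1⟩ := bounded_order2 c (1 / 4 + κ) hc (by linarith) (by linarith)
  obtain ⟨b, hb⟩ : ∃ b : ℝ, b = cb * c ^ 11 := ⟨_, rfl⟩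
  have hb0 : 0 < b := by rw [hb]; positivity
  obtain ⟨d2, hd2⟩ := burgess_rho2 m hm κ hκ hκ1 K c hc hKc1 (b / 100) (by positivity)
  obtain ⟨S0, hS0, d3, hd3⟩ := prime_all c (1 / 4 + κ) hc (by linarith)
  obtain ⟨k1, d4, hd4⟩ := geo κ c hκ hκ1 hc hc1 K hKc2 z0 (b / 100) (by positivity)
  obtain ⟨M, hM0, hM⟩ := rough_crude k1
  obtain ⟨d5, hd5⟩ := not_coprime c hc k1 (b / 100) (by positivity)
  refine ⟨c, hc, hc1, min σ1 (b ^ 2 / (16 * M ^ 2 * S0)), lt_min hσ1 (by positivity), d1 + d2 + d3 + d4 + d5 + 1, ?_⟩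
  intro d hd _ χ hχ ζ hζ hζre
  by_contra hcon
  rw [not_le] at hcon
  have hord := hd1 d (by omega) χ ζ hζ (hcon.trans_le (min_le_left _ _))
  obtain ⟨hz2, hzz0, hg1, hg2, hzK, hE, hgB⟩ := hd4 d (by omega)
  obtain ⟨u, l, hF⟩ := hK (zz c d) hz2
  obtain ⟨y, hy1, hy2, hy3⟩ := hz0 (zz c d) (Ax κ d) hzz0 hg1 hg2 ζ hζ hζre
  obtain ⟨hB1, hB2, hB3, hB4⟩ := hgB y hy1 hy2
  have hB := hd2 d (by omega) τ u l hF χ hχ hord y hy1 hB2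
  have hU := upper_sum hF d χ (Ax κ d) y
  have hW1 := window_up hF hz2 d (by omega) (Ax κ d) y hzK hy1
  have hW2 := window_low hF hz2 d (by omega) (Ax κ d) y hzK hy1
  have hN := hd5 d (by omega) (Ax κ d) y hB3
  have hmid := hd3 d (by omega)
  have hMq : ∀ q : ℕ, 1 ≤ q → MS d (zz c d) (Ax κ d / q) (y / q) ≤ M := fun q _ =>
    (MS_mono (Nat.zero_le _) ((Nat.div_le_self _ _).trans hB3)).trans (hM (zz c d) hz2 d)
  have hL := compare d χ ζ hζ (zz c d) (Ax κ d) y M hMq (PW d c (1 / 4 + κ))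
    (by
      intro p hp
      unfold PW at hp
      exact (mem_filter.mp hp).2.2.1)
    (by
      intro n hn p hp hpn
      rw [mem_rg] at hn
      have hpd : ¬ p ∣ d := by
        intro h
        have h1 : p ∣ Nat.gcd n d := Nat.dvd_gcd hpn h
        rw [hn.2.1] at h1
        exact absurd (Nat.dvd_one.mp h1) hp.one_lt.ne'
      have hzp : zz c d < p := hn.2.2.2 p hp hpn
      have hpB : p ≤ y := (Nat.le_of_dvd hn.2.2.1 hpn).trans hn.1.2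
      have hzp' : (d : ℝ) ^ c < p := by
        unfold zz at hzp
        exact (Nat.floor_lt (Real.rpow_nonneg (Nat.cast_nonneg d) _)).mp hzp
      unfold PW
      rw [mem_filter, mem_Icc]
      exact ⟨⟨hp.one_le, hpB.trans hB1⟩, hzp', hp, hpd⟩)
  obtain ⟨X, hX⟩ : ∃ X : ℝ, X = VP d (zz c d) * Real.log ((y : ℝ) / Ax κ d) := ⟨_, rfl⟩
  rw [← hX] at hW1 hW2
  have hlz : 0 < Real.log (zz c d) := Real.log_pos (by exact_mod_cast (by omega : 1 < zz c d))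
  have hXc : X ≤ 1 / c := by
    have h1 : X ≤ VP d (zz c d) * (Real.log (zz c d) / c) := by
      rw [hX]
      exact mul_le_mul_of_nonneg_left hB4 (VV_nonneg' d _)
    have h2 : VP d (zz c d) * (Real.log (zz c d) / c) ≤ 1 / Real.log (zz c d) * (Real.log (zz c d) / c) :=
      mul_le_mul_of_nonneg_right (VP_upper d _ hz2) (by positivity)
    have h3 : 1 / Real.log (zz c d) * (Real.log (zz c d) / c) = 1 / c := by
      field_simp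
    linarith
  have hτX : 2 * τ * X ≤ b / 4 := by
    have h1 : 2 * τ * X ≤ 2 * τ * (1 / c) := mul_le_mul_of_nonneg_left hXc (by positivity)
    have h2 : 2 * τ * (1 / c) ≤ b / 4 := by
      rw [mul_one_div, div_le_iff₀ hc, hb]
      nlinarith
    linarith
  obtain ⟨T, hT⟩ : ∃ T : ℝ, T = ∑ p ∈ PW d c (1 / 4 + κ), 1 / (p : ℝ) * ‖χ (p : ZMod d) - ζ‖ := ⟨_, rfl⟩
  obtain ⟨T2, hT2⟩ : ∃ T2 : ℝ, T2 = ∑ p ∈ PW d c (1 / 4 + κ), rw1 p * ‖χ (p : ZMod d) - ζ‖ ^ 2 := ⟨_, rfl⟩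
  rw [← hT] at hL
  rw [← hT2] at hcon
  have hT20 : 0 ≤ T2 := by
    rw [hT2]
    exact sum_nonneg fun p _ => by unfold rw1; positivity
  have hbig : b / 4 ≤ M * T := by
    rw [← hb] at hy3
    linarith
  have hCS : T ^ 2 ≤ S0 * T2 := by
    have h1 : T ^ 2 ≤ (∑ p ∈ PW d c (1 / 4 + κ), 1 / (p : ℝ)) * T2 := by
      rw [hT, hT2]
      refine Finset.sum_sq_le_sum_mul_sum_of_sq_le_mul _ (fun p _ => by positivity)
        (fun p _ => ?_) (fun p _ => le_of_eq ?_)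
      · unfold rw1
        positivity
      · unfold rw1
        ring
    exact h1.trans (mul_le_mul_of_nonneg_right hmid hT20)
  have hσ : T2 < b ^ 2 / (16 * M ^ 2 * S0) := hcon.trans_le (min_le_right _ _)
  have h1 : (b / 4) ^ 2 ≤ (M * T) ^ 2 := pow_le_pow_left₀ (by positivity) hbig 2
  have h2 : (M * T) ^ 2 ≤ M ^ 2 * (S0 * T2) := by
    rw [mul_pow]
    exact mul_le_mul_of_nonneg_left hCS (by positivity)
  have h3 : T2 * (16 * M ^ 2 * S0) < b ^ 2 := (lt_div_iff₀ (by positivity)).1 hσ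
  nlinarith

/-- a nonprincipal character is not close to a constant on the primes up to `d ^ (1/4 + κ)` -/
theorem far (κ : ℝ) (hκ : 0 < κ) (hκ1 : κ ≤ 1 / 100) : ∃ s0 : ℝ, 0 < s0 ∧ ∀ s : ℝ, 0 < s → s ≤ s0 → ∃ σ : ℝ, 0 < σ ∧
    ∃ d0 : ℕ, ∀ d : ℕ, d0 ≤ d → ∀ [NeZero d], ∀ χ : DirichletCharacter ℂ d, χ ≠ 1 → ∀ ζ : ℂ, ‖ζ‖ = 1 →
      -(1 / 2) ≤ ζ.re → σ ≤ ∑ p ∈ PW d s (1 / 4 + κ), rw1 p * ‖χ (p : ZMod d) - ζ‖ ^ 2 := by
  obtain ⟨c, hc, -, σ, hσ, d1, hd1⟩ := far_one κ hκ hκ1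
  refine ⟨c, hc, fun s hs hsc => ⟨σ, hσ, d1 + 1, fun d hd _ χ hχ ζ hζ hζre => ?_⟩⟩
  refine (hd1 d (by omega) χ hχ ζ hζ hζre).trans (sum_le_sum_of_subset_of_nonneg ?_ fun p _ _ => ?_)
  · intro p hp
    unfold PW at hp ⊢
    rw [mem_filter] at hp ⊢
    refine ⟨hp.1, lt_of_le_of_lt ?_ hp.2.1, hp.2.2⟩
    exact Real.rpow_le_rpow_of_exponent_le (by exact_mod_cast (by omega : 1 ≤ d)) hsc
  · unfold rw1
    positivity

end Pool.Agent.Lib.MP_42948a_nt.FR
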