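import Pool.Agent.Lib.MP_42948a_nt.MV.M
import Pool.Agent.Lib.MP_42948a_nt.MV.FQ
import Pool.Agent.Lib.MP_42948a_nt.OM.E9
import Pool.Agent.Lib.MP_42948a_nt.PS.B2b

/-!
# A nonprincipal character is not close to a constant on the primes up to `d ^ (1/4 + κ)`: definitions
-/

namespace Pool.Agent.Lib.MP_42948a_nt.FR

open Finset Pool.Agent.Lib.MP_42948a_nt.OA Pool.Agent.Lib.MP_42948a_nt.AC Pool.Agent.Lib.MP_42948a_nt.TQ
  Pool.Agent.Lib.MP_42948a_nt.PS Pool.Agent.Lib.MP_42948a_nt.EK Pool.Agent.Lib.MP_42948a_nt.MV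

/-- the lower end of the window -/
noncomputable def Ax (κ : ℝ) (d : ℕ) : ℕ := ⌊(d : ℝ) ^ (1 / 4 + κ / 4 : ℝ)⌋₊

theorem VP_upper (d : ℕ) [NeZero d] (z : ℕ) (hz : 2 ≤ z) : VP d z ≤ 1 / Real.log z := by
  have h := VV_upper d z hz
  rw [ZMod.card_units_eq_totient] at h
  unfold VP
  exact h

theorem RR_eq (z A B : ℕ) : OM.RR z A B = rg 1 z A B := by
  classical
  unfold OM.RR rg
  refine Finset.filter_congr fun n _ => ?_
  exact ⟨fun h => ⟨Nat.coprime_one_right n, h⟩, fun h => h.2⟩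

end Pool.Agent.Lib.MP_42948a_nt.FR
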