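import Pool.Agent.Lib.MP_42948a_nt.FR.Defs

/-!
# The choice of the parameters (job N1)

Take `τ = cb c^12/8`. All three of `c`, `cb c^12/8`, `(C (1 + log (8/(cb c^12))) + 2) c = (C + C log (8/cb) + 2) c - 12 C (c log c)` tend to `0` as `c → 0+` (`nhdsWithin 0 (Set.Ioi 0)`; `Real.tendsto_mul_log_rpow_nhdsGT_zero`-like lemma or `tendsto_log_mul_self_nhdsGT_zero`/`Real.tendsto_log_mul_rpow_nhdsGT_zero`;
or elementary: `log (1/c) ≤ 2 (1/c)^(1/2)`, so `c log (1/c) ≤ 2 √c`). Choose `c` so small that `c ≤ κ/100`, `τ ≤ 1` and the third is `≤ κ/16`.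
-/

namespace Pool.Agent.Lib.MP_42948a_nt.FR

open Finset Pool.Agent.Lib.MP_42948a_nt.OA Pool.Agent.Lib.MP_42948a_nt.AC Pool.Agent.Lib.MP_42948a_nt.TQ
  Pool.Agent.Lib.MP_42948a_nt.PS Pool.Agent.Lib.MP_42948a_nt.EK Pool.Agent.Lib.MP_42948a_nt.MV

theorem choice (C cb κ : ℝ) (hC : 0 < C) (hcb : 0 < cb) (hκ : 0 < κ) : ∃ c : ℝ, 0 < c ∧ c ≤ κ / 100 ∧
    ∃ τ : ℝ, 0 < τ ∧ τ ≤ 1 ∧ 8 * τ ≤ cb * c ^ 12 ∧ (C * (1 + Real.log (1 / τ)) + 2) * c ≤ κ / 16 := by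
  have _ := hC
  have t0 : Filter.Tendsto (fun c : ℝ => c) (nhdsWithin 0 (Set.Ioi 0)) (nhds 0) :=
    Filter.tendsto_id.mono_right nhdsWithin_le_nhds
  have t1 : Filter.Tendsto (fun c : ℝ => Real.log c * c) (nhdsWithin 0 (Set.Ioi 0)) (nhds 0) := by
    have h := tendsto_log_mul_rpow_nhdsGT_zero (zero_lt_one : (0 : ℝ) < 1)
    simpa only [Real.rpow_one] using h
  have t2 : Filter.Tendsto (fun c : ℝ => cb * c ^ 12 / 8) (nhdsWithin 0 (Set.Ioi 0)) (nhds 0) := by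
    have h := ((t0.pow 12).const_mul cb).div_const 8
    have e : cb * (0 : ℝ) ^ 12 / 8 = 0 := by ring
    rw [e] at h
    exact h
  have t3 : Filter.Tendsto (fun c : ℝ => (C * (1 - Real.log (cb / 8)) + 2) * c -
      12 * C * (Real.log c * c)) (nhdsWithin 0 (Set.Ioi 0)) (nhds 0) := by
    have h := (t0.const_mul (C * (1 - Real.log (cb / 8)) + 2)).sub (t1.const_mul (12 * C))
    have e : (C * (1 - Real.log (cb / 8)) + 2) * 0 - 12 * C * 0 = 0 := by ring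
    rw [e] at h
    exact h
  have e0 : ∀ᶠ c : ℝ in nhdsWithin 0 (Set.Ioi 0), c < κ / 100 :=
    t0.eventually (gt_mem_nhds (by positivity))
  have e2 : ∀ᶠ c : ℝ in nhdsWithin 0 (Set.Ioi 0), cb * c ^ 12 / 8 < 1 :=
    t2.eventually (gt_mem_nhds (by norm_num))
  have e3 : ∀ᶠ c : ℝ in nhdsWithin 0 (Set.Ioi 0), (C * (1 - Real.log (cb / 8)) + 2) * c -
      12 * C * (Real.log c * c) < κ / 16 := t3.eventually (gt_mem_nhds (by positivity))
  have e4 : ∀ᶠ c : ℝ in nhdsWithin 0 (Set.Ioi 0), 0 < c := self_mem_nhdsWithin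
  obtain ⟨c, h0, h2, h3, h4⟩ := (e0.and (e2.and (e3.and e4))).exists
  refine ⟨c, h4, h0.le, cb * c ^ 12 / 8, by positivity, h2.le, by linarith, ?_⟩
  have hlog : Real.log (1 / (cb * c ^ 12 / 8)) = -Real.log (cb / 8) - 12 * Real.log c := by
    have e : cb * c ^ 12 / 8 = cb / 8 * c ^ 12 := by ring
    rw [e, one_div, Real.log_inv, Real.log_mul (by positivity) (by positivity), Real.log_pow]
    push_cast
    ring
  rw [hlog]
  nlinarith

end Pool.Agent.Lib.MP_42948a_nt.FR
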